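import Pool.Agent.H317.GR.StmA

/-!
# The reduction `SL_n(ℤ) → SL_n(ℤ/m)` is surjective
-/

set_option autoImplicit false

namespace Pool.Agent.H695.GR

open Matrix Pool.Agent.H317.GR

/-- in a semilocal ring `a + t b` is a unit for some `t` if `a`, `b` are coprime -/
theorem exists_unit (R : Type) [CommRing R] [Finite (MaximalSpectrum R)] (a b : R)
    (hab : IsCoprime a b) : ∃ t : R, IsUnit (a + t * b) := by
  classical
  have hI : Pairwise (Function.onFun IsCoprime (fun m : MaximalSpectrum R => m.asIdeal)) := by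
    intro m m' hmm
    have hne : m.asIdeal ≠ m'.asIdeal := fun h => hmm (MaximalSpectrum.ext h)
    have h1 := m.isMaximal
    have h2 := m'.isMaximal
    exact Ideal.isCoprime_of_isMaximal hne
  obtain ⟨t, ht⟩ := Ideal.exists_forall_sub_mem_ideal hI
    (fun m : MaximalSpectrum R => if a ∈ m.asIdeal then (1 : R) else 0)
  refine ⟨t, ?_⟩
  by_contra hcon
  obtain ⟨I, hImax, hwI⟩ := exists_max_ideal_of_mem_nonunits (show a + t * b ∈ nonunits R from hcon)
  have h1 := ht ⟨I, hImax⟩
  simp only at h1
  obtain ⟨x, y, hxy⟩ := hab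
  by_cases ha : a ∈ I
  · rw [if_pos ha] at h1
    have h2 : t * b ∈ I := by
      have := I.sub_mem hwI ha
      rwa [add_sub_cancel_left] at this
    have h3 : b ∈ I := by
      have h4 := I.sub_mem h2 (I.mul_mem_right b h1)
      have h5 : t * b - (t - 1) * b = b := by ring
      rwa [h5] at h4
    apply hImax.ne_top
    rw [Ideal.eq_top_iff_one, ← hxy]
    exact I.add_mem (I.mul_mem_left x ha) (I.mul_mem_left y h3)
  · rw [if_neg ha, sub_zero] at h1
    apply ha
    have h2 := I.sub_mem hwI (I.mul_mem_right b h1)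
    rwa [add_sub_cancel_right] at h2

section

variable {S R : Type} [CommRing S] [CommRing R] (f : S →+* R)

/-- the matrix is the reduction of a matrix of determinant one -/
def Lft {n : ℕ} (A : Matrix (Fin n) (Fin n) R) : Prop :=
  ∃ B : Matrix (Fin n) (Fin n) S, B.det = 1 ∧ B.map f = A

variable {f}

/-- an elementary operation -/
theorem lft_op {n : ℕ} (A : Matrix (Fin n) (Fin n) R) (u c : Fin n → S) (h : c ⬝ᵥ u = 0)
    (hL : Lft f ((1 + vecMulVec (fun i => f (u i)) (fun i => f (c i))) * A)) : Lft f A := by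
  obtain ⟨B, hB, hBA⟩ := hL
  have hsq : vecMulVec u c * vecMulVec u c = 0 := by
    rw [vecMulVec_mul_vecMulVec, h, zero_smul, vecMulVec_zero]
  have hinv : (1 - vecMulVec u c) * (1 + vecMulVec u c) = 1 := by
    rw [sub_mul, one_mul, mul_add, mul_one, hsq]
    abel
  have hdet : (1 - vecMulVec u c).det = 1 := by
    have h1 := det_one_add_replicateCol_mul_replicateRow (ι := Unit) (-u) c
    rw [← vecMulVec_eq, dotProduct_neg, h, neg_zero, add_zero, neg_vecMulVec, ← sub_eq_add_neg] at h1
    exact h1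
  refine ⟨(1 - vecMulVec u c) * B, ?_, ?_⟩
  · rw [det_mul, hB, hdet, one_mul]
  · have hm : (1 + vecMulVec u c).map f = 1 + vecMulVec (fun i => f (u i)) (fun i => f (c i)) := by
      ext i j
      rw [map_apply, Matrix.add_apply, map_add, Matrix.add_apply, vecMulVec_apply, vecMulVec_apply, map_mul]
      congr 1
      by_cases hij : i = j
      · rw [hij, one_apply_eq, one_apply_eq, map_one]
      · rw [one_apply_ne hij, one_apply_ne hij, map_zero]
    have h3 : (1 - vecMulVec u c).map f * (1 + vecMulVec u c).map f = 1 := by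
      rw [← Matrix.map_mul, hinv, Matrix.map_one f (map_zero f) (map_one f)]
    rw [Matrix.map_mul, hBA, ← hm, ← mul_assoc, h3, one_mul]

/-- an elementary operation on the first column -/
theorem op_apply {n : ℕ} (A : Matrix (Fin n) (Fin n) R) (u c : Fin n → R) (i j : Fin n) :
    ((1 + vecMulVec u c) * A) i j = A i j + u i * ∑ k, c k * A k j := by
  rw [add_mul, one_mul, Matrix.add_apply, mul_apply]
  congr 1
  rw [Finset.mul_sum]
  refine Finset.sum_congr rfl fun k _ => ?_
  rw [vecMulVec_apply, mul_assoc]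

theorem op_det {n : ℕ} (A : Matrix (Fin n) (Fin n) R) (u c : Fin n → R) (h : c ⬝ᵥ u = 0) :
    ((1 + vecMulVec u c) * A).det = A.det := by
  have h1 := det_one_add_replicateCol_mul_replicateRow (ι := Unit) u c
  rw [← vecMulVec_eq, h, add_zero] at h1
  rw [det_mul, h1, one_mul]

theorem col_zero {n : ℕ} (A : Matrix (Fin (n + 1)) (Fin (n + 1)) R) (c : Fin n → R)
    (j : Fin (n + 1)) :
    ((1 + vecMulVec (Fin.cons 0 c) (Pi.single 0 1 : Fin (n + 1) → R)) * A) 0 j = A 0 j := by
  rw [op_apply, Fin.cons_zero, zero_mul, add_zero]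

theorem col_succ {n : ℕ} (A : Matrix (Fin (n + 1)) (Fin (n + 1)) R) (c : Fin n → R) (i : Fin n)
    (j : Fin (n + 1)) :
    ((1 + vecMulVec (Fin.cons 0 c) (Pi.single 0 1 : Fin (n + 1) → R)) * A) i.succ j =
      A i.succ j + c i * A 0 j := by
  rw [op_apply, Fin.cons_succ, Finset.sum_eq_single 0]
  · rw [Pi.single_eq_same, one_mul]
  · intro k _ hk
    rw [Pi.single_eq_of_ne hk, zero_mul]
  · intro h
    exact absurd (Finset.mem_univ _) h

theorem row_zero {n : ℕ} (A : Matrix (Fin (n + 1)) (Fin (n + 1)) R) (c : Fin n → R)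
    (j : Fin (n + 1)) :
    ((1 + vecMulVec (Pi.single 0 1 : Fin (n + 1) → R) (Fin.cons 0 c)) * A) 0 j =
      A 0 j + ∑ k, c k * A k.succ j := by
  rw [op_apply, Pi.single_eq_same, one_mul, Fin.sum_univ_succ, Fin.cons_zero, zero_mul, zero_add]
  simp only [Fin.cons_succ]

theorem dot1 {n : ℕ} (c : Fin n → R) :
    (Fin.cons 0 c : Fin (n + 1) → R) ⬝ᵥ (Pi.single 0 1 : Fin (n + 1) → R) = 0 := by
  rw [dotProduct_single_one, Fin.cons_zero]

theorem dot2 {n : ℕ} (c : Fin n → R) :
    (Pi.single 0 1 : Fin (n + 1) → R) ⬝ᵥ (Fin.cons 0 c : Fin (n + 1) → R) = 0 := by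
  rw [single_one_dotProduct, Fin.cons_zero]

/-- addition of a combination of the other rows to the first row -/
theorem lft_row (hf : Function.Surjective f) {n : ℕ} (A : Matrix (Fin (n + 1)) (Fin (n + 1)) R)
    (c : Fin n → R)
    (hL : Lft f ((1 + vecMulVec (Pi.single 0 1 : Fin (n + 1) → R) (Fin.cons 0 c)) * A)) :
    Lft f A := by
  choose g hg using hf
  apply lft_op A (Pi.single 0 1) (Fin.cons 0 fun i => g (c i))
  · rw [dotProduct_single_one, Fin.cons_zero]
  · have e1 : (fun i => f ((Pi.single 0 1 : Fin (n + 1) → S) i)) = Pi.single 0 1 := by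
      funext i
      by_cases hi : i = 0
      · rw [hi, Pi.single_eq_same, Pi.single_eq_same, map_one]
      · rw [Pi.single_eq_of_ne hi, Pi.single_eq_of_ne hi, map_zero]
    have e2 : (fun i => f ((Fin.cons 0 fun i => g (c i) : Fin (n + 1) → S) i)) = Fin.cons 0 c := by
      funext i
      refine Fin.cases ?_ (fun k => ?_) i
      · rw [Fin.cons_zero, Fin.cons_zero, map_zero]
      · rw [Fin.cons_succ, Fin.cons_succ, hg]
    rw [e1, e2]
    exact hL

/-- addition of multiples of the first row to the other rows -/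
theorem lft_col (hf : Function.Surjective f) {n : ℕ} (A : Matrix (Fin (n + 1)) (Fin (n + 1)) R)
    (c : Fin n → R)
    (hL : Lft f ((1 + vecMulVec (Fin.cons 0 c) (Pi.single 0 1 : Fin (n + 1) → R)) * A)) :
    Lft f A := by
  choose g hg using hf
  apply lft_op A (Fin.cons 0 fun i => g (c i)) (Pi.single 0 1)
  · rw [single_one_dotProduct, Fin.cons_zero]
  · have e1 : (fun i => f ((Pi.single 0 1 : Fin (n + 1) → S) i)) = Pi.single 0 1 := by
      funext i
      by_cases hi : i = 0
      · rw [hi, Pi.single_eq_same, Pi.single_eq_same, map_one]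
      · rw [Pi.single_eq_of_ne hi, Pi.single_eq_of_ne hi, map_zero]
    have e2 : (fun i => f ((Fin.cons 0 fun i => g (c i) : Fin (n + 1) → S) i)) = Fin.cons 0 c := by
      funext i
      refine Fin.cases ?_ (fun k => ?_) i
      · rw [Fin.cons_zero, Fin.cons_zero, map_zero]
      · rw [Fin.cons_succ, Fin.cons_succ, hg]
    rw [e1, e2]
    exact hL

/-- the first column is the first unit vector -/
theorem lft_unit (hf : Function.Surjective f) {n : ℕ}
    (IH : ∀ A : Matrix (Fin n) (Fin n) R, A.det = 1 → Lft f A)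
    (A : Matrix (Fin (n + 1)) (Fin (n + 1)) R) (hA : A.det = 1) (h0 : A 0 0 = 1)
    (h1 : ∀ i : Fin n, A i.succ 0 = 0) : Lft f A := by
  have key : ∀ (T : Type) [CommRing T] (M : Matrix (Fin (n + 1)) (Fin (n + 1)) T), M 0 0 = 1 →
      (∀ i : Fin n, M i.succ 0 = 0) → M.det = (M.submatrix Fin.succ Fin.succ).det := by
    intro T _ M h0 h1
    rw [det_succ_column_zero, Fin.sum_univ_succ]
    simp only [h0, h1, Fin.val_zero, pow_zero, mul_one, one_mul, mul_zero, zero_mul,
      Finset.sum_const_zero, add_zero]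
    rfl
  choose g hg using hf
  obtain ⟨B, hB, hBA⟩ := IH (A.submatrix Fin.succ Fin.succ) (by rw [← key R A h0 h1, hA])
  let M : Matrix (Fin (n + 1)) (Fin (n + 1)) S :=
    Matrix.of (Fin.cons (Fin.cons 1 fun j => g (A 0 j.succ)) fun i => Fin.cons 0 fun j => B i j)
  refine ⟨M, ?_, ?_⟩
  · rw [key S M rfl (fun i => rfl)]
    have e : M.submatrix Fin.succ Fin.succ = B := by
      ext i j
      rfl
    rw [e, hB]
  · ext i j
    refine Fin.cases ?_ (fun i => ?_) i
    · refine Fin.cases ?_ (fun j => ?_) j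
      · show f 1 = A 0 0
        rw [map_one, h0]
      · show f (g (A 0 j.succ)) = A 0 j.succ
        rw [hg]
    · refine Fin.cases ?_ (fun j => ?_) j
      · show f 0 = A i.succ 0
        rw [map_zero, h1]
      · show f (B i j) = A i.succ j.succ
        exact congrFun (congrFun hBA i) j

/-- the theorem for surjective homomorphisms to semilocal rings -/
theorem lft_all [Finite (MaximalSpectrum R)] (hf : Function.Surjective f) :
    ∀ (n : ℕ) (A : Matrix (Fin n) (Fin n) R), A.det = 1 → Lft f A := by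
  intro n
  induction n with
  | zero =>
    intro A hA
    exact ⟨1, det_one, Subsingleton.elim _ _⟩
  | succ n IH =>
    intro A hA
    rcases Nat.eq_zero_or_pos n with hn | hn
    · subst hn
      apply lft_unit hf IH A hA
      · rw [← hA]
        exact (det_fin_one A).symm
      · intro i
        exact i.elim0
    · obtain ⟨n, rfl⟩ := Nat.exists_eq_succ_of_ne_zero hn.ne'
      -- the first step: a unit
      have s1 : ∀ A : Matrix (Fin (n + 1 + 1)) (Fin (n + 1 + 1)) R, A.det = 1 →
          (∀ A' : Matrix (Fin (n + 1 + 1)) (Fin (n + 1 + 1)) R, A'.det = 1 → IsUnit (A' 0 0) →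
            Lft f A') → Lft f A := by
        intro A hA H
        have hadj : A.adjugate 0 0 * A 0 0 + ∑ i : Fin (n + 1), A.adjugate 0 i.succ * A i.succ 0 = 1 := by
          have h2 := congrFun (congrFun (adjugate_mul A) 0) 0
          rw [hA, one_smul, one_apply_eq, mul_apply, Fin.sum_univ_succ] at h2
          exact h2
        obtain ⟨t, ht⟩ := exists_unit R (A 0 0) (∑ i : Fin (n + 1), A.adjugate 0 i.succ * A i.succ 0)
          ⟨A.adjugate 0 0, 1, by rw [one_mul]; exact hadj⟩
        apply lft_row hf A (fun i => t * A.adjugate 0 i.succ)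
        apply H
        · rw [op_det _ _ _ (dot1 _), hA]
        · rw [row_zero]
          simp only [mul_assoc]
          rw [← Finset.mul_sum]
          exact ht
      apply s1 A hA
      intro A hA hu
      obtain ⟨v, hv⟩ := hu.exists_left_inv
      -- the entry `1` in the second row
      apply lft_col hf A (Pi.single 0 ((1 - A (Fin.succ 0) 0) * v))
      have hA1 := op_det A _ _ (dot2 (Pi.single (0 : Fin (n + 1)) ((1 - A (Fin.succ 0) 0) * v)))
      have h00 := col_zero A (Pi.single (0 : Fin (n + 1)) ((1 - A (Fin.succ 0) 0) * v)) 0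
      have h10 := col_succ A (Pi.single (0 : Fin (n + 1)) ((1 - A (Fin.succ 0) 0) * v)) 0 0
      rw [Pi.single_eq_same, mul_assoc, hv, mul_one, add_sub_cancel] at h10
      rw [hA] at hA1
      generalize (1 + vecMulVec (Fin.cons 0 (Pi.single (0 : Fin (n + 1))
        ((1 - A (Fin.succ 0) 0) * v))) (Pi.single 0 1 : Fin (n + 1 + 1) → R)) * A = A1 at hA1 h00 h10 ⊢
      -- the entry `1` in the first row
      apply lft_row hf A1 (Pi.single 0 (1 - A1 0 0))
      have hA2 := op_det A1 _ _ (dot1 (Pi.single (0 : Fin (n + 1)) (1 - A1 0 0)))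
      have g00 := row_zero A1 (Pi.single (0 : Fin (n + 1)) (1 - A1 0 0)) 0
      rw [Finset.sum_eq_single 0 (fun k _ hk => by rw [Pi.single_eq_of_ne hk, zero_mul])
        (fun h => absurd (Finset.mem_univ _) h), Pi.single_eq_same, h10, mul_one,
        add_sub_cancel] at g00
      rw [hA1] at hA2
      generalize (1 + vecMulVec (Pi.single 0 1 : Fin (n + 1 + 1) → R)
        (Fin.cons 0 (Pi.single (0 : Fin (n + 1)) (1 - A1 0 0)))) * A1 = A2 at hA2 g00 ⊢
      -- the first column
      apply lft_col hf A2 (fun i => - A2 i.succ 0)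
      apply lft_unit hf IH
      · rw [op_det _ _ _ (dot2 _), hA2]
      · rw [col_zero, g00]
      · intro i
        rw [col_succ, g00, mul_one, add_neg_cancel]

end

/-- **SRJ.** -/
theorem srj : S_SRJ := by
  intro n m hm A
  have : NeZero m := ⟨hm.ne'⟩
  have : Finite (MaximalSpectrum (ZMod m)) :=
    Finite.of_injective (fun M : MaximalSpectrum (ZMod m) => (M.asIdeal : Set (ZMod m)))
      (fun M M' h => MaximalSpectrum.ext (SetLike.coe_injective h))
  obtain ⟨B, hB, hBA⟩ := lft_all (f := Int.castRingHom (ZMod m))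
    (ZMod.ringHom_surjective _) n A.1 A.2
  refine ⟨⟨B, hB⟩, ?_⟩
  apply Subtype.ext
  exact hBA

end Pool.Agent.H695.GR
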